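import Pool.Agent.V11122.Sink.NotSink

set_option autoImplicit false

/-! A shortest-path triangulation of the sphere with twelve vertices, all of whose edges are shorter
than `π/2`, which is not sinkable. -/

namespace Pool.Agent.Results.MP_b37e0c_co.UnsinkableShortEdges

open Pool.Agent.V11122.Sink

/-- There is a shortest-path triangulation of the sphere (with twelve vertices), with neither pole
on a vertex or an edge and all edges of length less than `π/2`, which is not sinkable. -/
theorem result : ∃ (G : SimpleGraph (Fin 12)) (p : Fin 12 → E3),
    IsShortestPathTriangulation G p ∧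
    (∀ v w, G.Adj v w → InnerProductGeometry.angle (p v) (p w) < Real.pi / 2) ∧
    north ∉ drawing G p ∧ -north ∉ drawing G p ∧ ¬ Sinkable G p := by
  refine ⟨G, p, triangulation, fun v w h => angle_lt h, pole ?_ ?_, pole ?_ ?_, not_sinkable⟩ <;>
    simp [north]

end Pool.Agent.Results.MP_b37e0c_co.UnsinkableShortEdges
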